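import Pool.Agent.Lib.MP_294da1_gt.LbTransfer

namespace Pool.Agent.Results.MP_294da1_gt.AckermannLower
open Pool.Agent.Lib.MP_294da1_gt

theorem result (h : ℕ) : ∃ l : List (MulAut (F (h + 8))), (∀ τ ∈ l, IsTwist τ) ∧
    (∀ σ ∈ l, ∀ τ ∈ l, σ * τ = τ * σ ∨ σ * τ * σ = τ * σ * τ) ∧
    l.prod = MulAut.conj (gam (h + 8) (h + 8)) ∧ ack h h ≤ l.length := Lb.ack_lower h

end Pool.Agent.Results.MP_294da1_gt.AckermannLower
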