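import Pool.Agent.Lib.MP_294da1_gt.Br.Main

/-! Restricted positive factorizations of the boundary twist have a greatest length. -/

set_option autoImplicit false

namespace Pool.Agent.Results.MP_294da1_gt.FiniteLength

open Pool.Agent.Lib.MP_294da1_gt.Br

theorem result (g : ℕ) (hg : 1 ≤ g) : ∃ N, IsGreatest {n | Fact g n} N := final hg

end Pool.Agent.Results.MP_294da1_gt.FiniteLength
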